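import Pool.Agent.Helper74.RN.St

set_option autoImplicit false

/-!
Project RN, module LOW: lower bounds for the number of unmatched letters.
-/

namespace Pool.Agent.Helper37.RN

open Pool.Agent.Helper74 Pool.Agent.Helper74.RN

/-- **LOW**. -/
theorem hLOW : Pool.Agent.Helper74.RN.StLOW := by
  intro G act col l j h
  induction h with
  | nil => simp
  | skip x w k _ ih =>
    obtain ⟨h1, h2, h3⟩ := ih
    refine ⟨?_, ?_, ?_⟩
    · rw [List.countP_cons]
      split_ifs <;> omega
    · intro c
      have h4 := h2 c
      rw [List.countP_cons, List.length_cons]
      split_ifs <;> omega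
    · rw [List.length_cons]
      omega
  | wrap x y u v j k hR _ _ ih1 ih2 =>
    obtain ⟨a1, a2, a3⟩ := ih1
    obtain ⟨b1, b2, b3⟩ := ih2
    obtain ⟨hx, hy, hxy⟩ := hR
    refine ⟨?_, ?_, ?_⟩
    · rw [List.countP_cons, List.countP_append, List.countP_cons]
      simp only [hx, hy]
      simp only [Bool.not_true, Bool.false_eq_true, if_false]
      omega
    · intro c
      have a4 := a2 c
      have b4 := b2 c
      rw [List.countP_cons, List.countP_append, List.countP_cons, List.length_cons,
        List.length_append, List.length_cons]
      simp only [hx, hy, Bool.not_true, Bool.false_or, decide_eq_true_eq]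
      by_cases h1 : col x = c
      · have h2 : col y ≠ c := fun h => hxy (h1.trans h.symm)
        rw [if_pos h1, if_neg h2]
        omega
      · rw [if_neg h1]
        split_ifs <;> omega
    · rw [List.length_cons, List.length_append, List.length_cons]
      omega

end Pool.Agent.Helper37.RN
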